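import Pool.Agent.Helper22.G4.Real
import Pool.Agent.Helper22.G4.St.C0
import Pool.Agent.Helper22.G4.St.R11
import Pool.Agent.Helper22.G4.St.R16

/-!
# G4-R14: validity of the book inequalities
-/

namespace Pool.Agent.Helper65.G4
open Pool.Agent.Helper22.G4

open Submodule Filter

lemma ev_pos {A B : ℝ} (hA : 0 < A) : ∀ᶠ m : ℝ in atTop, 0 < m * A + B := by
  filter_upwards [eventually_gt_atTop (-B / A)] with m hm
  rw [div_lt_iff₀ hA] at hm
  linarith

/-- the direction of the vertices of the gadget -/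
noncomputable def w0 (g : ℕ) : E5 := vec 0 0 2 (gX g + gY g) (gX g ^ 2 + gY g ^ 2)

/-- the constant part of `p` -/
noncomputable def eP : E5 := vec 0 0 (-1) 0 0

/-- the constant part of `q` -/
noncomputable def eQ (g : ℕ) : E5 := vec 0 0 (-1) (gY g - gX g) (gY g ^ 2 - gX g ^ 2)

lemma c_p {I : NF} (G : Geo I) (h m : ℝ) (g : ℕ) :
    G.c h m (Vx.p g) = m • (h • vec 0 1 0 0 0 + w0 g) + eP := by
  simp only [Geo.c, Vx.p, vec, w0, eP]
  ext i
  fin_cases i <;> (simp; try ring)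

lemma c_q {I : NF} (G : Geo I) (h m : ℝ) (g : ℕ) :
    G.c h m (Vx.q g) = m • (h • vec 0 1 0 0 0 + w0 g) + eQ g := by
  simp only [Geo.c, Vx.q, vec, w0, eQ]
  ext i
  fin_cases i <;> (simp; try ring)

lemma f_p {I : NF} (G : Geo I) (h m : ℝ) (g : ℕ) (f : E5 →ₗ[ℝ] ℝ) :
    f (G.c h m (Vx.p g)) = m * (h * f (vec 0 1 0 0 0) + f (w0 g)) + f eP := by
  rw [c_p]; simp [mul_add]

lemma f_q {I : NF} (G : Geo I) (h m : ℝ) (g : ℕ) (f : E5 →ₗ[ℝ] ℝ) :
    f (G.c h m (Vx.q g)) = m * (h * f (vec 0 1 0 0 0) + f (w0 g)) + f (eQ g) := by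
  rw [c_q]; simp [mul_add]

lemma fF_e {I : NF} (G : Geo I) (s a : ℕ) : G.fF s a (vec 0 1 0 0 0) = 1 := by
  simp [Geo.fF, b0, bX, lin_vec]

lemma fQ_e (a b : ℕ) : fQ a b (vec 0 1 0 0 0) = 0 := by
  unfold fQ
  split_ifs <;> simp [lin_vec]

lemma gX_bounds {g L : ℕ} (hg : g < 3 * L) : 1 ≤ gX g ∧ gX g ≤ 4 * L ∧ 1 ≤ gY g ∧ gY g ≤ 4 * L := by
  unfold gX gY
  refine ⟨?_, ?_, ?_, ?_⟩ <;> split_ifs <;> omega

lemma gX_ne (g : ℕ) : gX g ≠ gY g := by
  unfold gX gY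
  split_ifs <;> omega

/-- the pages of a gadget are consecutive and in the same operation -/
lemma gXY_mod (g a : ℕ) (ha : a % 4 = 0) : ¬ ((gX g = a ∨ gX g = a + 1) ∧ (gY g = a ∨ gY g = a + 1)) := by
  unfold gX gY
  split_ifs <;> omega

lemma consec_nonneg (x a : ℕ) : (0 : ℝ) ≤ ((x : ℝ) - a) * (x - (a + 1)) := by
  rcases Nat.lt_or_ge a x with h | h
  · have : ((a : ℝ) + 1) ≤ x := by exact_mod_cast h
    exact mul_nonneg (by linarith) (by linarith)
  · have : (x : ℝ) ≤ a := by exact_mod_cast h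
    exact mul_nonneg_of_nonpos_of_nonpos (by linarith) (by linarith)

lemma consec_pos {x a : ℕ} (h1 : x ≠ a) (h2 : x ≠ a + 1) : (0 : ℝ) < ((x : ℝ) - a) * (x - (a + 1)) := by
  refine lt_of_le_of_ne (consec_nonneg x a) (Ne.symm (mul_ne_zero ?_ ?_))
  · intro h
    exact h1 (by exact_mod_cast sub_eq_zero.1 h)
  · intro h
    exact h2 (by exact_mod_cast sub_eq_zero.1 h)

lemma fQ_w_pos (g : ℕ) {a : ℕ} (ha : a % 4 = 0) : 0 < fQ a (a + 1) (w0 g) := by
  have h0 : fQ a (a + 1) (w0 g) = ((gX g : ℝ) - a) * (gX g - (a + 1)) +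
      ((gY g : ℝ) - a) * (gY g - (a + 1)) := by
    simp only [fQ, Nat.add_eq_zero_iff, one_ne_zero, and_false, if_false, w0, lin_vec]
    push_cast
    ring
  rw [h0]
  have h1 := gXY_mod g a ha
  have h2 := consec_nonneg (gX g) a
  have h3 := consec_nonneg (gY g) a
  by_cases h4 : gX g = a ∨ gX g = a + 1
  · have h5 : ¬ (gY g = a ∨ gY g = a + 1) := fun h => h1 ⟨h4, h⟩
    push Not at h5
    have := consec_pos h5.1 h5.2
    linarith
  · push Not at h4
    have := consec_pos h4.1 h4.2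
    linarith

lemma fQM_w_pos {g L : ℕ} (hg : g < 3 * L) : 0 < fQ (4 * L) 0 (w0 g) := by
  have h0 : fQ (4 * L) 0 (w0 g) = (gX g : ℝ) * ((4 * L : ℕ) - gX g) +
      (gY g : ℝ) * ((4 * L : ℕ) - gY g) := by
    simp only [fQ, if_true, w0, lin_vec]
    ring
  rw [h0]
  obtain ⟨h1, h2, h3, h4⟩ := gX_bounds hg
  have k1 : (1 : ℝ) ≤ gX g := by exact_mod_cast h1
  have k2 : (gX g : ℝ) ≤ (4 * L : ℕ) := by exact_mod_cast h2
  have k3 : (1 : ℝ) ≤ gY g := by exact_mod_cast h3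
  have k4 : (gY g : ℝ) ≤ (4 * L : ℕ) := by exact_mod_cast h4
  rcases lt_or_gt_of_ne (gX_ne g) with h | h
  · have k5 : (gX g : ℝ) < gY g := by exact_mod_cast h
    have : 0 < (gX g : ℝ) * ((4 * L : ℕ) - gX g) := mul_pos (by linarith) (by linarith)
    have : 0 ≤ (gY g : ℝ) * ((4 * L : ℕ) - gY g) := mul_nonneg (by linarith) (by linarith)
    linarith
  · have k5 : (gY g : ℝ) < gX g := by exact_mod_cast h
    have : 0 ≤ (gX g : ℝ) * ((4 * L : ℕ) - gX g) := mul_nonneg (by linarith) (by linarith)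
    have : 0 < (gY g : ℝ) * ((4 * L : ℕ) - gY g) := mul_pos (by linarith) (by linarith)
    linarith

lemma Q_fcodes {I : NF} (hI : I.OK) {a b : ℕ} (h : Fc.Q I.N a b ∈ I.data.fcodes) :
    (a % 4 = 0 ∧ b = a + 1 ∧ a + 1 ≤ I.M) ∨ (a = I.M ∧ b = 0) := by
  have hs := NF.size hI
  rw [NF.mem_fcodes] at h
  rcases h with h | ⟨a', s, -, -, -, h⟩ | ⟨d, hd, h⟩
  · simp only [Fc.Q, Prod.mk.injEq] at h
    omega
  · simp only [Fc.Q, Fc.F, Prod.mk.injEq] at h
    omega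
  · have hd' := NF.opd_ok hI hd
    simp only [OpD.facets, List.mem_cons, List.not_mem_nil, or_false, Fc.Q, Fc.GX, Fc.GY, Fc.T0,
      Fc.G, Prod.mk.injEq] at h
    rcases h with h | h
    · have h1 := h.1.1
      have h2 := h.1.2.1
      simp only [OpD.nxt, OpD.pd] at h1 h2
      split_ifs at h2 <;> omega
    · omega

/-- G4-R14 (validity of the book inequalities). -/
theorem valid_F {I : NF} (hI : I.OK) (G : Geo I) (hF : G.Fan) : ∀ᶠ h : ℝ in Filter.atTop,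
    ∀ᶠ m : ℝ in Filter.atTop, (∀ a s, 1 ≤ a → a + 1 ≤ I.M → s ≤ I.N →
      G.Valid h m (Fc.F I.N s a)) ∧
      ∀ a b, Fc.Q I.N a b ∈ I.data.fcodes → G.Valid h m (Fc.Q I.N a b) := by
  obtain ⟨hM, hM', hN, -⟩ := NF.size hI
  have H1 : ∀ᶠ h : ℝ in atTop, ∀ a ∈ Finset.range (I.M + 1), ∀ s ∈ Finset.range (I.N + 1),
      ∀ g ∈ Finset.range (3 * I.ops.length), 0 < h * 1 + G.fF s a (w0 g) := by
    simp only [Filter.eventually_all_finset]
    intro a _ s _ g _
    exact ev_pos one_pos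
  filter_upwards [H1] with h hh
  have H2 : ∀ᶠ m : ℝ in atTop, ∀ a ∈ Finset.range (I.M + 1), ∀ s ∈ Finset.range (I.N + 1),
      ∀ g ∈ Finset.range (3 * I.ops.length), 0 < m * (h * 1 + G.fF s a (w0 g)) + G.fF s a eP := by
    simp only [Filter.eventually_all_finset]
    intro a ha s hs g hg
    exact ev_pos (hh a ha s hs g hg)
  have H3 : ∀ᶠ m : ℝ in atTop, ∀ a ∈ Finset.range (I.M + 1), ∀ s ∈ Finset.range (I.N + 1),
      ∀ g ∈ Finset.range (3 * I.ops.length),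
      0 < m * (h * 1 + G.fF s a (w0 g)) + G.fF s a (eQ g) := by
    simp only [Filter.eventually_all_finset]
    intro a ha s hs g hg
    exact ev_pos (hh a ha s hs g hg)
  have H4 : ∀ᶠ m : ℝ in atTop, ∀ a ∈ Finset.range (I.M + 1),
      ∀ g ∈ Finset.range (3 * I.ops.length), a % 4 = 0 →
      0 < m * (fQ a (a + 1) (w0 g)) + fQ a (a + 1) eP ∧
      0 < m * (fQ a (a + 1) (w0 g)) + fQ a (a + 1) (eQ g) := by
    simp only [Filter.eventually_all_finset]
    intro a ha g hg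
    by_cases h4 : a % 4 = 0
    · filter_upwards [ev_pos (B := fQ a (a + 1) eP) (fQ_w_pos g h4),
        ev_pos (B := fQ a (a + 1) (eQ g)) (fQ_w_pos g h4)] with m h5 h6 _
      exact ⟨h5, h6⟩
    · exact Filter.Eventually.of_forall fun m h5 => absurd h5 h4
  have H5 : ∀ᶠ m : ℝ in atTop, ∀ g ∈ Finset.range (3 * I.ops.length),
      0 < m * (fQ I.M 0 (w0 g)) + fQ I.M 0 eP ∧
      0 < m * (fQ I.M 0 (w0 g)) + fQ I.M 0 (eQ g) := by
    simp only [Filter.eventually_all_finset]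
    intro g hg
    have h1 : 0 < fQ I.M 0 (w0 g) := by
      rw [hM']
      exact fQM_w_pos (Finset.mem_range.1 hg)
    filter_upwards [ev_pos (B := fQ I.M 0 eP) h1, ev_pos (B := fQ I.M 0 (eQ g)) h1] with m h5 h6
    exact ⟨h5, h6⟩
  filter_upwards [H2, H3, H4, H5] with m k2 k3 k4 k5
  constructor
  · intro a s ha ha' hs v hv
    have hma : a ∈ Finset.range (I.M + 1) := Finset.mem_range.2 (by omega)
    have hms : s ∈ Finset.range (I.N + 1) := Finset.mem_range.2 (by omega)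
    rw [Geo.phi_F]
    have hpage := valid_F_page hI G hF h m ha ha' hs hv
    rcases NF.verts_cases hv with rfl | rfl | ⟨b, i, j, -, rfl⟩ | ⟨g, hg, rfl⟩ | ⟨g, hg, rfl⟩
    · exact hpage (by simp [Vx.b1])
    · exact hpage (by simp [Vx.b2])
    · exact hpage (by simp [Vx.u])
    · have h1 := k2 a hma s hms g (Finset.mem_range.2 hg)
      rw [f_p, fF_e]
      refine ⟨h1.le, fun h2 => absurd h2 h1.ne', fun h2 => ?_⟩
      rw [Fc.mem_p] at h2
      simp [Fc.F] at h2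
    · have h1 := k3 a hma s hms g (Finset.mem_range.2 hg)
      rw [f_q, fF_e]
      refine ⟨h1.le, fun h2 => absurd h2 h1.ne', fun h2 => ?_⟩
      rw [Fc.mem_q] at h2
      simp [Fc.F] at h2
  · intro a b hab v hv
    rw [Geo.phi_Q _ _ _ (by omega)]
    have hab' : (a + 1 ≤ I.M ∧ b = a + 1) ∨ (a = I.M ∧ b = 0) := by
      rcases Q_fcodes hI hab with h1 | h1
      · exact Or.inl ⟨h1.2.2, h1.2.1⟩
      · exact Or.inr h1
    have hpage := valid_Q_page hI G h m hab' hv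
    have hpos : ∀ g ∈ Finset.range (3 * I.ops.length), 0 < m * (fQ a b (w0 g)) + fQ a b eP ∧
        0 < m * (fQ a b (w0 g)) + fQ a b (eQ g) := by
      intro g hg
      rcases Q_fcodes hI hab with ⟨h1, rfl, h3⟩ | ⟨rfl, rfl⟩
      · exact k4 a (Finset.mem_range.2 (by omega)) g hg h1
      · exact k5 g hg
    rcases NF.verts_cases hv with rfl | rfl | ⟨b, i, j, -, rfl⟩ | ⟨g, hg, rfl⟩ | ⟨g, hg, rfl⟩
    · exact hpage (by simp [Vx.b1])
    · exact hpage (by simp [Vx.b2])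
    · exact hpage (by simp [Vx.u])
    · have h1 := (hpos g (Finset.mem_range.2 hg)).1
      rw [f_p, fQ_e, mul_zero, zero_add]
      refine ⟨h1.le, fun h2 => absurd h2 h1.ne', fun h2 => ?_⟩
      rw [Fc.mem_p] at h2
      simp [Fc.Q] at h2
    · have h1 := (hpos g (Finset.mem_range.2 hg)).2
      rw [f_q, fQ_e, mul_zero, zero_add]
      refine ⟨h1.le, fun h2 => absurd h2 h1.ne', fun h2 => ?_⟩
      rw [Fc.mem_q] at h2
      simp [Fc.Q] at h2

end Pool.Agent.Helper65.G4
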