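import Pool.Agent.Helper22.G4.Poly

/-!
# G4-T7: the encoding of a graph given by lists is computable in polynomial time
-/

namespace Pool.Agent.Helper65.G4
open Pool.Agent.Helper22.G4

open Pool.Agent.Helper89 Pool.Agent.Helper91.PolyTime

lemma ptf_unary {α : Type*} [PEnc α] {f : α → ℕ} (hf : PTF f) : PTF fun a => unary (f a) := by
  have h : PTF fun a => ((List.range (f a)).map fun _ => true) ++ [false] :=
    PTF.append (PTF.map (f := fun _ _ => true) (PTF.range hf) (PTF.const true)) (PTF.const [false])
  refine h.of_eq fun a => ?_
  rw [unary, List.map_const', List.length_range]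

/-- adjacency test -/
def tst {β : Type} [DecidableEq β] (L : List β) (E : List (β × β)) (u v : ℕ) : Bool :=
  E.any fun e => decide (some e.1 = L[u]?) && decide (some e.2 = L[v]?)

lemma tst_eq {β : Type} [DecidableEq β] (L : List β) (E : List (β × β)) (i j : Fin L.length) :
    tst L E i j = decide ((L.get i, L.get j) ∈ E) := by
  rw [tst, Bool.eq_iff_iff]
  simp only [List.any_eq_true, Bool.and_eq_true, decide_eq_true_eq, Fin.is_lt,
    List.getElem?_eq_getElem, Option.some.injEq, List.get_eq_getElem]
  constructor
  · rintro ⟨e, he, h1, h2⟩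
    rw [← h1, ← h2]
    exact he
  · intro h
    exact ⟨_, h, rfl, rfl⟩

lemma range_flatMap {γ : Type*} (n : ℕ) (f : ℕ → List γ) :
    (List.range n).flatMap f = (List.finRange n).flatMap fun i : Fin n => f i.val := by
  rw [← List.map_coe_finRange_eq_range, List.flatMap_map]

lemma filter_map_flatMap {α β γ : Type*} (l : List α) (P : α → Bool) (g : α → β)
    (f : β → List γ) :
    ((l.filter P).map g).flatMap f = l.flatMap fun j => bif P j then f (g j) else [] := by
  induction l with
  | nil => rfl
  | cons a l ih =>
    rw [List.filter_cons, List.flatMap_cons, ← ih]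
    cases h : P a <;> simp

lemma enc_toEdgeList {β : Type} [DecidableEq β] (L : List β) (E : List (β × β)) :
    (toEdgeList L E).enc = unary L.length ++ (List.range L.length).flatMap fun u =>
      (List.range L.length).flatMap fun v => bif tst L E u v then unary u ++ unary v else [] := by
  rw [EdgeList.enc]
  congr 1
  rw [range_flatMap]
  simp only [range_flatMap, tst_eq, toEdgeList, List.flatMap_assoc, filter_map_flatMap]

/-- G4-T7 -/
theorem pt_toEdgeList {ι β : Type} [PEnc ι] [PEnc β] [DecidableEq β] {L : ι → List β}
    {E : ι → List (β × β)} (hL : PTF L) (hE : PTF E) :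
    PT (fun i : ι => PEnc.enc i) (fun i => (toEdgeList (L i) (E i)).enc) := by
  have hn : PTF fun i => (L i).length := PTF.length hL
  have htst : PTF fun q : (ι × ℕ) × ℕ => tst (L q.1.1) (E q.1.1) q.1.2 q.2 := by
    refine PTF.any (α := (ι × ℕ) × ℕ) (β := β × β) (l := fun q => E q.1.1)
      (f := fun q e => decide (some e.1 = (L q.1.1)[q.1.2]?) &&
        decide (some e.2 = (L q.1.1)[q.2]?)) (hE.comp PTF.id.fst.fst) ?_
    refine PTF.and (PTF.eq ?_ ?_) (PTF.eq ?_ ?_)
    · exact PTF.some PTF.id.snd.fst
    · exact PTF.getElem? PTF.id.fst.fst.snd (hL.comp PTF.id.fst.fst.fst)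
    · exact PTF.some PTF.id.snd.snd
    · exact PTF.getElem? PTF.id.fst.snd (hL.comp PTF.id.fst.fst.fst)
  have hin : PTF fun p : ι × ℕ => (List.range (L p.1).length).flatMap fun v =>
      bif tst (L p.1) (E p.1) p.2 v then unary p.2 ++ unary v else [] := by
    refine PTF.flatMap (α := ι × ℕ) (β := ℕ) (γ := Bool)
      (l := fun p => List.range (L p.1).length)
      (f := fun p v => bif tst (L p.1) (E p.1) p.2 v then unary p.2 ++ unary v else [])
      (PTF.range (hn.comp PTF.id.fst)) ?_
    exact PTF.cond htst (PTF.append (ptf_unary PTF.id.fst.snd) (ptf_unary PTF.id.snd))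
      (PTF.const [])
  have hout : PTF fun i => (List.range (L i).length).flatMap fun u =>
      (List.range (L i).length).flatMap fun v =>
        bif tst (L i) (E i) u v then unary u ++ unary v else [] := by
    exact PTF.flatMap (α := ι) (β := ℕ) (γ := Bool) (l := fun i => List.range (L i).length)
      (f := fun i u => (List.range (L i).length).flatMap fun v =>
        bif tst (L i) (E i) u v then unary u ++ unary v else []) (PTF.range hn) hin
  have h := PTF.strOfList (PTF.append (ptf_unary hn) hout)
  have he : (fun i => (toEdgeList (L i) (E i)).enc) = fun i => PEnc.enc (Str.ofList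
      (unary (L i).length ++ (List.range (L i).length).flatMap fun u =>
      (List.range (L i).length).flatMap fun v =>
        bif tst (L i) (E i) u v then unary u ++ unary v else [])) := by
    funext i
    exact enc_toEdgeList _ _
  rw [he]
  exact h

end Pool.Agent.Helper65.G4
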